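import Pool.Agent.TH272.Shr.ZeroSumHeavy

set_option autoImplicit false

/-! # 3SUM in the form `a + b = c`: circuits with shared gates -/

namespace Pool.Agent.R617.SHS

open Finset Pool.Agent.TH697.Form Pool.Agent.TH697.Row Pool.Agent.TH697.Form.ThreeSum
open Pool.Agent.TH272.Shr
open Pool.Agent.TH272.Shr.ZeroSum (numbers arith arith_one)
open Pool.Agent.TH457.Ary.ThreeSum (queries params card_T logb_q)

variable {n c w : ℕ} {Ω : Type} [Fintype Ω]

theorem main_heavy (hn : 400 ≤ n) (hc : 1 ≤ c) (hw : 1 ≤ w) (μ : Ω → ℝ)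
    (hμ : IsProb μ) (C : Ω → Circuit (Option (Fin n)) (Item n n) w ((2 * n) ^ c))
    (hC : ApproximatesOn μ (fun ω => (C ω).eval) (Valid n n) (threeSum n n)) (d : ℕ) :
    (n : ℝ) ^ 2 * Nat.log 2 n ≤
      134 * c * w ^ 2 * Nat.log 2 n * mean μ (fun ω => (C ω).leaves) +
        400 * (d * (mean μ (fun ω => (C ω).refs) + mean μ (fun ω => (C ω).shared)) +
          n * (mean μ (fun ω => (C ω).heavyRefs (numbers n) d) +
            mean μ (fun ω => (C ω).heavyGates (numbers n) d))) := by
  classical
  obtain ⟨b, hb, hL, hb2⟩ := params hn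
  have h := circuit_heavy μ hμ C (Valid n n) (threeSum n n) hC
    (Nat.one_le_pow _ _ (by omega)) hw (numbers n) d (T := Fin (n / 2) × Fin b) (by
      intro a ha
      rw [numbers, mem_map] at ha
      obtain ⟨i, -, rfl⟩ := ha
      exact queries hb hn i)
  have hcd : (numbers n).card = n := by rw [numbers, card_map, card_univ, Fintype.card_fin]
  rw [hcd] at h
  have h2 := arith (by exact_mod_cast hn) (by exact_mod_cast hL) (by exact_mod_cast hc)
    (by exact_mod_cast hw) (card_T hn hb2) (logb_q (by omega) hL) (mean_nonneg μ hμ _)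
    le_rfl zero_le_one h
  linarith

theorem single_heavy (hn : 400 ≤ n) (μ : Ω → ℝ)
    (hμ : IsProb μ) (C : Ω → Circuit (Option (Fin n)) (Item n n) 1 2)
    (hC : ApproximatesOn μ (fun ω => (C ω).eval) (Valid n n) (threeSum n n)) (d : ℕ) :
    (n : ℝ) ^ 2 * Nat.log 2 n ≤ 400 * (mean μ (fun ω => (C ω).leaves) +
      d * (mean μ (fun ω => (C ω).refs) + mean μ (fun ω => (C ω).shared)) +
      n * (mean μ (fun ω => (C ω).heavyRefs (numbers n) d) +
        mean μ (fun ω => (C ω).heavyGates (numbers n) d))) := by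
  classical
  obtain ⟨b, hb, hL, hb2⟩ := params hn
  have h := circuit_heavy μ hμ C (Valid n n) (threeSum n n) hC
    (by norm_num) le_rfl (numbers n) d (T := Fin (n / 2) × Fin b) (by
      intro a ha
      rw [numbers, mem_map] at ha
      obtain ⟨i, -, rfl⟩ := ha
      exact queries hb hn i)
  have hcd : (numbers n).card = n := by rw [numbers, card_map, card_univ, Fintype.card_fin]
  rw [hcd] at h
  rw [Nat.cast_one, sub_self, zero_mul, add_zero, one_mul] at h
  have h2 := arith_one (by exact_mod_cast hn) (by exact_mod_cast hL) (card_T hn hb2)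
    le_rfl zero_le_one h
  linarith

end Pool.Agent.R617.SHS
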